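import Mathlib

/-!
# Simplification of positions with Left and Right terminals is not confluent

The position `{{*L}, {*L, {*L}}, {*L, {*L, *R}}}` simplifies to three pairwise non-isomorphic
reduced positions: `*L`, `{{*L, {*L}}}` and `{{*L, {*L, *R}}}`.
-/

namespace Pool.Agent.Results.MP_31d4f2_co.NotUnique

/-- Positions: the terminals `*L` and `*R`, and the positions with options `f 0, ..., f n`. -/
inductive Pos : Type
  | L : Pos
  | R : Pos
  | node (n : ℕ) (f : Fin (n + 1) → Pos) : Pos

/-- The sum of `*L` and a position. -/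
def addL : Pos → Pos
  | .L => .L
  | .R => .R
  | .node m g => .node m fun j => addL (g j)

/-- The sum of `*R` and a position. -/
def addR : Pos → Pos
  | .L => .R
  | .R => .L
  | .node m g => .node m fun j => addR (g j)

/-- The sum of a non-terminal position `G` with options `G i`, `i ≤ n`, and a position, given the
sums `ih i` of `G i` with positions. -/
def addNode (n : ℕ) (ih : Fin (n + 1) → Pos → Pos) : Pos → Pos
  | .L => .node n fun i => ih i .L
  | .R => .node n fun i => ih i .R
  | .node m g => .node (n + m + 1) fun k =>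
      if h : k.val < n + 1 then ih ⟨k.val, h⟩ (.node m g)
      else addNode n ih (g ⟨k.val - (n + 1), by omega⟩)

/-- The disjunctive sum. -/
def add : Pos → Pos → Pos
  | .L => addL
  | .R => addR
  | .node n f => addNode n fun i => add (f i)

/-- `leftWins G b`: Left wins `G` when Left (`b = true`) or Right (`b = false`) is to move. -/
def leftWins : Pos → Bool → Prop
  | .L, _ => True
  | .R, _ => False
  | .node _ f, true => ∃ i, leftWins (f i) false
  | .node _ f, false => ∀ i, leftWins (f i) true

/-- The four outcome classes. -/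
inductive Outcome
  | L
  | R
  | N
  | P

open Classical in
/-- The outcome of a position. -/
noncomputable def outcome (G : Pos) : Outcome :=
  if leftWins G true then (if leftWins G false then .L else .N)
  else (if leftWins G false then .P else .R)

/-- Equivalence of positions. -/
def Equivalent (G H : Pos) : Prop := ∀ X, outcome (add G X) = outcome (add H X)

/-- `H` is an option of `G`. -/
def IsOption (H : Pos) : Pos → Prop
  | .L => False
  | .R => False
  | .node _ f => ∃ i, f i = H

/-- Isomorphism of positions. -/
def Iso : Pos → Pos → Prop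
  | .L, .L => True
  | .R, .R => True
  | .node _ f, .node _ g => (∀ i, ∃ j, Iso (f i) (g j)) ∧ ∀ j, ∃ i, Iso (f i) (g j)
  | _, _ => False

/-- The position with the only option `G`. -/
def single (G : Pos) : Pos := .node 0 fun _ => G

/-- A simplification step: rule (S1) for `*L` and `*R`, rule (S2), or a step in an option. -/
inductive Step : Pos → Pos → Prop
  | toL (n : ℕ) (f : Fin (n + 1) → Pos) (i : Fin (n + 1)) (hi : Equivalent (f i) (single .L))
      (h : ∀ j, ∃ K, IsOption K (f j) ∧ Equivalent K .L) : Step (.node n f) .L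
  | toR (n : ℕ) (f : Fin (n + 1) → Pos) (i : Fin (n + 1)) (hi : Equivalent (f i) (single .R))
      (h : ∀ j, ∃ K, IsOption K (f j) ∧ Equivalent K .R) : Step (.node n f) .R
  | toSingle (n : ℕ) (f : Fin (n + 1) → Pos) (hn : 2 ≤ n + 1) (i : Fin (n + 1))
      (h : ∀ j, j ≠ i → ∃ K, IsOption K (f j) ∧ Equivalent K (single (f i))) :
      Step (.node n f) (single (f i))
  | inside (n : ℕ) (f : Fin (n + 1) → Pos) (i : Fin (n + 1)) (H : Pos) (h : Step (f i) H) :
      Step (.node n f) (.node n (Function.update f i H))

/-- `H` is obtained from `G` by a finite sequence of simplification steps. -/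
def Reaches (G H : Pos) : Prop := Relation.ReflTransGen Step G H

/-- No simplification step applies. -/
def Reduced (G : Pos) : Prop := ∀ H, ¬ Step G H

/-! ### Outcomes -/

lemma outcome_eq_iff (G H : Pos) :
    outcome G = outcome H ↔ ∀ b, leftWins G b ↔ leftWins H b := by
  unfold outcome
  constructor
  · intro h b
    cases b <;> split_ifs at h <;> simp_all
  · intro h
    rw [h true, h false]

lemma equivalent_iff (G H : Pos) :
    Equivalent G H ↔ ∀ X b, leftWins (add G X) b ↔ leftWins (add H X) b := by
  unfold Equivalent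
  exact forall_congr' fun X => outcome_eq_iff _ _

lemma addL_eq (G : Pos) : addL G = G := by
  induction G with
  | L => rfl
  | R => rfl
  | node m g ih => rw [addL]; congr 1; funext j; exact ih j

lemma add_node_node (n : ℕ) (f : Fin (n + 1) → Pos) (m : ℕ) (g : Fin (m + 1) → Pos) :
    add (.node n f) (.node m g) = .node (n + m + 1) fun k =>
      if h : k.val < n + 1 then add (f ⟨k.val, h⟩) (.node m g)
      else add (.node n f) (g ⟨k.val - (n + 1), by omega⟩) := rfl

lemma wins_true (n : ℕ) (f : Fin (n + 1) → Pos) (m : ℕ) (g : Fin (m + 1) → Pos) :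
    leftWins (add (.node n f) (.node m g)) true ↔
      (∃ i, leftWins (add (f i) (.node m g)) false) ∨
        ∃ j, leftWins (add (.node n f) (g j)) false := by
  rw [add_node_node, leftWins]
  constructor
  · rintro ⟨k, hk⟩
    split_ifs at hk with h
    · exact Or.inl ⟨_, hk⟩
    · exact Or.inr ⟨_, hk⟩
  · rintro (⟨i, hi⟩ | ⟨j, hj⟩)
    · refine ⟨⟨i.val, by omega⟩, ?_⟩
      rw [dif_pos i.isLt]
      exact hi
    · refine ⟨⟨n + 1 + j.val, by omega⟩, ?_⟩
      rw [dif_neg (by show ¬ (n + 1 + j.val < n + 1); omega)]
      have h : (⟨n + 1 + j.val - (n + 1), by omega⟩ : Fin (m + 1)) = j := by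
        ext; simp
      simp only [h]
      exact hj

lemma wins_false (n : ℕ) (f : Fin (n + 1) → Pos) (m : ℕ) (g : Fin (m + 1) → Pos) :
    leftWins (add (.node n f) (.node m g)) false ↔
      (∀ i, leftWins (add (f i) (.node m g)) true) ∧
        ∀ j, leftWins (add (.node n f) (g j)) true := by
  rw [add_node_node, leftWins]
  constructor
  · intro h
    refine ⟨fun i => ?_, fun j => ?_⟩
    · have h1 := h ⟨i.val, by omega⟩
      rw [dif_pos i.isLt] at h1
      exact h1
    · have h1 := h ⟨n + 1 + j.val, by omega⟩
      rw [dif_neg (by show ¬ (n + 1 + j.val < n + 1); omega)] at h1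
      have h2 : (⟨n + 1 + j.val - (n + 1), by omega⟩ : Fin (m + 1)) = j := by
        ext; simp
      simp only [h2] at h1
      exact h1
  · rintro ⟨h1, h2⟩ k
    split_ifs with h
    · exact h1 _
    · exact h2 _

/-- If `B` has the option `*L` and `{B}` behaves like `*L` in sums with terminals, then `{B}` is
equivalent to `*L`. -/
lemma single_equivalent {n : ℕ} {f : Fin (n + 1) → Pos} {i : Fin (n + 1)} (hi : f i = .L)
    (h1 : ∀ b, leftWins (add (single (.node n f)) .L) b)
    (h2 : ∀ b, ¬ leftWins (add (single (.node n f)) .R) b) :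
    Equivalent (single (.node n f)) .L := by
  rw [equivalent_iff]
  intro X
  induction X with
  | L => intro b; simp only [h1 b, true_iff]; exact trivial
  | R => intro b; simp only [h2 b, false_iff]; exact id
  | node m g ih =>
    have hL : ∀ b, leftWins (add .L (.node m g)) b ↔ leftWins (.node m g) b := by
      intro b
      have : add .L (.node m g) = .node m g := addL_eq _
      rw [this]
    have hg : ∀ j b, leftWins (add (single (.node n f)) (g j)) b ↔ leftWins (g j) b := by
      intro j b
      rw [ih j b]
      have : add .L (g j) = g j := addL_eq _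
      rw [this]
    intro b
    rw [hL]
    cases b with
    | true =>
      rw [single, wins_true]
      constructor
      · rintro (⟨k, hk⟩ | ⟨j, hj⟩)
        · rw [wins_false] at hk
          have h3 := hk.1 i
          rw [hi, hL] at h3
          exact h3
        · exact ⟨j, (hg j false).1 hj⟩
      · rintro ⟨j, hj⟩
        exact Or.inr ⟨j, (hg j false).2 hj⟩
    | false =>
      rw [single, wins_false]
      constructor
      · rintro ⟨-, h⟩ j
        exact (hg j true).1 (h j)
      · intro h
        refine ⟨fun k => ?_, fun j => (hg j true).2 (h j)⟩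
        rw [wins_true]
        refine Or.inl ⟨i, ?_⟩
        rw [hi, hL]
        exact h

/-! ### Evaluation of concrete positions -/

/-- Boolean version of `leftWins`. -/
def lw : Pos → Bool → Bool
  | .L, _ => true
  | .R, _ => false
  | .node n f, true => (List.finRange (n + 1)).any fun i => lw (f i) false
  | .node n f, false => (List.finRange (n + 1)).all fun i => lw (f i) true

lemma lw_iff (G : Pos) : ∀ b, leftWins G b ↔ lw G b = true := by
  induction G with
  | L => intro b; simp [leftWins, lw]
  | R => intro b; simp [leftWins, lw]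
  | node n f ih =>
    intro b
    cases b <;> simp [leftWins, lw, ih]

/-- `*L`, `{*L}`, `{*R}`, `{*L, *R}`. -/
def L1 : Pos := single .L

/-- `{*R}`. -/
def R1 : Pos := single .R

/-- `{*L, *R}`. -/
def LR : Pos := .node 1 ![.L, .R]

/-- `{*L, {*L}}`. -/
def B : Pos := .node 1 ![.L, L1]

/-- `{*L, {*L, *R}}`. -/
def C : Pos := .node 1 ![.L, LR]

lemma not_equivalent_of {G H : Pos} (X : Pos) (b : Bool) (h : lw (add G X) b ≠ lw (add H X) b) :
    ¬ Equivalent G H := by
  intro he
  rw [equivalent_iff] at he
  have h1 := he X b
  rw [lw_iff, lw_iff] at h1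
  exact h (Bool.eq_iff_iff.2 h1)

lemma ne1 : ¬ Equivalent B (single .L) := not_equivalent_of (single (single LR)) true (by decide)

lemma ne2 : ¬ Equivalent B (single .R) := not_equivalent_of .L true (by decide)

lemma ne3 : ¬ Equivalent .L (single .L) := not_equivalent_of (single LR) true (by decide)

lemma ne4 : ¬ Equivalent C (single .L) := not_equivalent_of (single (single LR)) true (by decide)

lemma ne5 : ¬ Equivalent C (single .R) := not_equivalent_of .L true (by decide)

lemma ne6 : ¬ Equivalent .R (single .L) := not_equivalent_of .L true (by decide)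

lemma equivalent_refl (G : Pos) : Equivalent G G := fun _ => rfl

lemma eqB : Equivalent (single B) .L := by
  refine single_equivalent (i := 0) rfl (fun b => ?_) (fun b => ?_)
  · rw [lw_iff]; cases b <;> decide
  · rw [lw_iff]; cases b <;> decide

lemma eqC : Equivalent (single C) .L := by
  refine single_equivalent (i := 0) rfl (fun b => ?_) (fun b => ?_)
  · rw [lw_iff]; cases b <;> decide
  · rw [lw_iff]; cases b <;> decide

lemma equivalent_symm {G H : Pos} (h : Equivalent G H) : Equivalent H G := fun X => (h X).symm

/-! ### Reduced positions -/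

lemma reduced_L : Reduced .L := by
  intro H h
  cases h

lemma reduced_R : Reduced .R := by
  intro H h
  cases h

lemma not_option_L (K : Pos) : ¬ IsOption K .L := id

lemma not_option_R (K : Pos) : ¬ IsOption K .R := id

/-- A position with a terminal option allows at most rule (S2) with that option kept, or a step in
an option. -/
lemma reduced_L1 : Reduced L1 := by
  intro H h
  cases h with
  | toL _ _ i hi h => obtain ⟨K, hK, -⟩ := h 0; exact hK
  | toR _ _ i hi h => obtain ⟨K, hK, -⟩ := h 0; exact hK
  | toSingle _ _ hn i h => exact absurd hn (by norm_num)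
  | inside _ _ i H h => exact reduced_L _ h

lemma reduced_LR : Reduced LR := by
  intro H h
  cases h with
  | toL _ _ i hi h => obtain ⟨K, hK, -⟩ := h 0; exact hK
  | toR _ _ i hi h => obtain ⟨K, hK, -⟩ := h 0; exact hK
  | toSingle _ _ hn i h =>
    fin_cases i
    · obtain ⟨K, hK, -⟩ := h 1 (by decide); exact hK
    · obtain ⟨K, hK, -⟩ := h 0 (by decide); exact hK
  | inside _ _ i H h =>
    fin_cases i
    · exact reduced_L _ h
    · exact reduced_R _ h

lemma reduced_B : Reduced B := by
  intro H h
  cases h with
  | toL _ _ i hi h => obtain ⟨K, hK, -⟩ := h 0; exact hK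
  | toR _ _ i hi h => obtain ⟨K, hK, -⟩ := h 0; exact hK
  | toSingle _ _ hn i h =>
    fin_cases i
    · obtain ⟨K, ⟨j, hj⟩, hK⟩ := h 1 (by decide)
      rw [← hj] at hK
      exact ne3 hK
    · obtain ⟨K, hK, -⟩ := h 0 (by decide); exact hK
  | inside _ _ i H h =>
    fin_cases i
    · exact reduced_L _ h
    · exact reduced_L1 _ h

lemma reduced_C : Reduced C := by
  intro H h
  cases h with
  | toL _ _ i hi h => obtain ⟨K, hK, -⟩ := h 0; exact hK
  | toR _ _ i hi h => obtain ⟨K, hK, -⟩ := h 0; exact hK
  | toSingle _ _ hn i h =>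
    fin_cases i
    · obtain ⟨K, ⟨j, hj⟩, hK⟩ := h 1 (by decide)
      rw [← hj] at hK
      fin_cases j
      · exact ne3 hK
      · exact ne6 hK
    · obtain ⟨K, hK, -⟩ := h 0 (by decide); exact hK
  | inside _ _ i H h =>
    fin_cases i
    · exact reduced_L _ h
    · exact reduced_LR _ h

lemma reduced_single {G : Pos} (h1 : ¬ Equivalent G (single .L)) (h2 : ¬ Equivalent G (single .R))
    (h3 : Reduced G) : Reduced (single G) := by
  intro H h
  unfold single at h
  cases h with
  | toL _ _ i hi h => exact h1 hi
  | toR _ _ i hi h => exact h2 hi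
  | toSingle _ _ hn i h => exact absurd hn (by norm_num)
  | inside _ _ i H h => exact h3 _ h

/-- The position `{{*L}, {*L, {*L}}, {*L, {*L, *R}}}`. -/
def G0 : Pos := .node 2 ![L1, B, C]

lemma step_L : Step G0 .L := by
  refine .toL 2 _ 0 (equivalent_refl _) fun j => ⟨.L, ?_, equivalent_refl _⟩
  fin_cases j
  · exact ⟨0, rfl⟩
  · exact ⟨0, rfl⟩
  · exact ⟨0, rfl⟩

lemma step_B : Step G0 (single B) := by
  refine .toSingle 2 ![L1, B, C] (by norm_num) 1 fun j _ => ⟨.L, ?_, equivalent_symm eqB⟩
  fin_cases j
  · exact ⟨0, rfl⟩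
  · exact ⟨0, rfl⟩
  · exact ⟨0, rfl⟩

lemma step_C : Step G0 (single C) := by
  refine .toSingle 2 ![L1, B, C] (by norm_num) 2 fun j _ => ⟨.L, ?_, equivalent_symm eqC⟩
  fin_cases j
  · exact ⟨0, rfl⟩
  · exact ⟨0, rfl⟩
  · exact ⟨0, rfl⟩

lemma not_iso_BC : ¬ Iso (single B) (single C) := by
  rintro ⟨h, -⟩
  obtain ⟨_, h1⟩ := h 0
  obtain ⟨-, h2⟩ := h1
  obtain ⟨i, hi⟩ := h2 1
  fin_cases i
  · exact hi
  · obtain ⟨-, h3⟩ := hi
    obtain ⟨k, hk⟩ := h3 1
    exact hk

/-- There is a position from which simplification steps lead to three pairwise non-isomorphic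
reduced positions, one of them the terminal `*L`; so simplification by (S1) and (S2) does not
produce a unique simplest position. -/
theorem result : ∃ G H₁ H₂ : Pos, Reaches G .L ∧ Reaches G H₁ ∧ Reaches G H₂ ∧
    Reduced .L ∧ Reduced H₁ ∧ Reduced H₂ ∧ ¬ Iso .L H₁ ∧ ¬ Iso .L H₂ ∧ ¬ Iso H₁ H₂ :=
  ⟨G0, single B, single C, .single step_L, .single step_B, .single step_C, reduced_L,
    reduced_single ne1 ne2 reduced_B, reduced_single ne4 ne5 reduced_C, id, id, not_iso_BC⟩

end Pool.Agent.Results.MP_31d4f2_co.NotUnique
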